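import Pool.Agent.ShiftUnif.Defs
import Pool.Agent.ShiftUnif.Dominate

/-!
# MP_bd9785_lc, Q1: negative answer

There is a Borel set `B ⊆ ℕ^ℕ × [ℕ]^ℕ` such that the shift graph restricted to every section
`B_x` has a Borel 3-colouring, while the complement of `B` has no full Borel uniformization.
-/

namespace Pool.Agent.Results.MP_bd9785_lc.NoFullUniformization

open Pool.Agent.ShiftUnif

theorem result : ∃ B : Set ((ℕ → ℕ) × InfSets), MeasurableSet B ∧
    (∀ x : ℕ → ℕ, BorelColourable 3 {y | (x, y) ∈ B}) ∧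
    ¬ ∃ f : (ℕ → ℕ) → InfSets, Measurable f ∧ ∀ x : ℕ → ℕ, (x, f x) ∈ Bᶜ :=
  ⟨BB, measurableSet_BB, BB_sections, BB_no_unif⟩

end Pool.Agent.Results.MP_bd9785_lc.NoFullUniformization
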